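import Mathlib
import Pool.Agent.Helper45.S1.TransferGap
import Pool.Agent.Helper45.S1.LrCotype

/-!
# Uniform, coarse and quasisymmetric embeddings into the trace class

Every real normed space that embeds uniformly, coarsely or quasisymmetrically into the Schatten
class `S_1` (of a real or complex Hilbert space) has `q_X = 2`.  In particular `L_r(0,1)` has no
such embedding when `r > 2`.
-/

open Filter Topology MeasureTheory
open scoped ENNReal

namespace Pool.Agent.Results.MP_428398_an.TraceClassEmbeddings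

section TraceClass

variable {𝕜 H : Type*} [RCLike 𝕜] [NormedAddCommGroup H] [InnerProductSpace 𝕜 H]

/-- The singular values `s_{j+1}(T)`, `j = 0, 1, 2, ...`, of a compact operator `T` on a Hilbert
space: the distance in operator norm from `T` to the operators of rank at most `j`. -/
noncomputable def singularValue (T : H →L[𝕜] H) (j : ℕ) : ℝ :=
  sInf ((fun F : H →L[𝕜] H => ‖T - F‖) '' {F | (F : H →ₗ[𝕜] H).rank ≤ j})

/-- `T` belongs to the trace class `S_1`: it is compact with summable singular values. -/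
def IsTraceClass (T : H →L[𝕜] H) : Prop :=
  IsCompactOperator T ∧ Summable (singularValue T)

/-- The norm of `S_1`. -/
noncomputable def traceNorm (T : H →L[𝕜] H) : ℝ := ∑' j, singularValue T j

end TraceClass

section Embeddings

variable {𝕜 H X : Type*} [RCLike 𝕜] [NormedAddCommGroup H] [InnerProductSpace 𝕜 H]
  [NormedAddCommGroup X]

/-- `φ : X → S_1` is a uniform embedding: it is injective, and `φ` and its inverse `φ(X) → X` are
uniformly continuous. -/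
def IsUniformEmbedding (φ : X → (H →L[𝕜] H)) : Prop :=
  (∀ x, IsTraceClass (φ x)) ∧ Function.Injective φ ∧
    (∀ e : ℝ, 0 < e → ∃ d : ℝ, 0 < d ∧ ∀ x y, ‖x - y‖ < d → traceNorm (φ x - φ y) < e) ∧
    (∀ e : ℝ, 0 < e → ∃ d : ℝ, 0 < d ∧ ∀ x y, traceNorm (φ x - φ y) < d → ‖x - y‖ < e)

/-- `φ : X → S_1` is a coarse embedding. -/
def IsCoarseEmbedding (φ : X → (H →L[𝕜] H)) : Prop :=
  (∀ x, IsTraceClass (φ x)) ∧ ∃ α β : ℝ → ℝ,
    (∀ t, 0 ≤ t → 0 ≤ α t) ∧ (∀ t, 0 ≤ t → 0 ≤ β t) ∧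
    MonotoneOn α (Set.Ici 0) ∧ MonotoneOn β (Set.Ici 0) ∧ Tendsto α atTop atTop ∧
      ∀ x y, α ‖x - y‖ ≤ traceNorm (φ x - φ y) ∧ traceNorm (φ x - φ y) ≤ β ‖x - y‖

/-- `φ : X → S_1` is a quasisymmetric embedding. -/
def IsQuasisymmetricEmbedding (φ : X → (H →L[𝕜] H)) : Prop :=
  (∀ x, IsTraceClass (φ x)) ∧ Function.Injective φ ∧
    ∃ η : ℝ → ℝ, (∀ t, 0 < t → 0 < η t) ∧ MonotoneOn η (Set.Ioi 0) ∧
      Tendsto η (𝓝[>] 0) (𝓝 0) ∧
      ∀ x y z, x ≠ y → x ≠ z → y ≠ z →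
        traceNorm (φ x - φ y) / traceNorm (φ x - φ z) ≤ η (‖x - y‖ / ‖x - z‖)

end Embeddings

/-- Rademacher cotype `q`. -/
def HasCotype (X : Type*) [NormedAddCommGroup X] [NormedSpace ℝ X] (q : ℝ) : Prop :=
  ∃ C : ℝ, 0 ≤ C ∧ ∀ (n : ℕ) (x : Fin n → X),
    ∑ j, ‖x j‖ ^ q ≤
      C ^ q * ((∑ ε : Fin n → ℤˣ, ‖∑ j, ((ε j : ℤ) : ℝ) • x j‖ ^ q) / 2 ^ n)

/-- `q_X`, the infimum of the cotypes `q ≥ 2` of `X`, with value `∞` if there are none. -/
noncomputable def cotypeIndex (X : Type*) [NormedAddCommGroup X] [NormedSpace ℝ X] : EReal :=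
  ⨅ (q : ℝ) (_ : 2 ≤ q ∧ HasCotype X q), (q : EReal)

theorem unitLower_of {𝕜 H X : Type*} [RCLike 𝕜] [NormedAddCommGroup H]
    [InnerProductSpace 𝕜 H] [CompleteSpace H] [NormedAddCommGroup X] [NormedSpace ℝ X]
    (φ : X → (H →L[𝕜] H))
    (hφ : IsUniformEmbedding φ ∨ IsCoarseEmbedding φ ∨ IsQuasisymmetricEmbedding φ) :
    Pool.H45.S1.UnitLower X := by
  rcases hφ with ⟨htc, -, h1, h2⟩ | ⟨htc, α, β, -, -, hα, hβ, hlim, h⟩ |
    ⟨htc, hinj, η, ηpos, ηmono, ηlim, hqs⟩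
  · exact Pool.H45.S1.unitLower_uniform_tc φ (fun x => (htc x).2) h1 h2
  · exact Pool.H45.S1.unitLower_coarse_tc φ (fun x => (htc x).2) α β hα hβ hlim
      (fun x y => (h x y).1) (fun x y => (h x y).2)
  · exact Pool.H45.S1.unitLower_tc φ (fun x => (htc x).2) hinj η ηpos ηmono ηlim hqs

theorem cotypeIndex_eq_two {𝕜 H X : Type*} [RCLike 𝕜] [NormedAddCommGroup H]
    [InnerProductSpace 𝕜 H] [CompleteSpace H] [NormedAddCommGroup X] [NormedSpace ℝ X]
    (φ : X → (H →L[𝕜] H))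
    (hφ : IsUniformEmbedding φ ∨ IsCoarseEmbedding φ ∨ IsQuasisymmetricEmbedding φ) :
    cotypeIndex X = 2 := by
  have hU := unitLower_of φ hφ
  refine le_antisymm ?_ ?_
  · have key : ∀ q : ℝ, 2 < q → cotypeIndex X ≤ (q : EReal) := by
      intro q hq
      refine iInf₂_le q ⟨hq.le, ?_⟩
      obtain ⟨C, hC, h⟩ := Pool.H45.S1.cotype_of_unitLower hU hq
      refine ⟨C, hC, fun n x => (h n x).trans (le_of_eq ?_)⟩
      rw [Pool.H45.S1.avg_eq_mul, inv_mul_eq_div]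
      rfl
    have hlim : Tendsto (fun q : ℝ => (q : EReal)) (𝓝[>] 2) (𝓝 ((2 : ℝ) : EReal)) :=
      (continuous_coe_real_ereal.tendsto 2).mono_left nhdsWithin_le_nhds
    have := ge_of_tendsto hlim (by
      filter_upwards [self_mem_nhdsWithin] with q hq using key q hq)
    exact this
  · refine le_iInf₂ fun q hq => ?_
    have : ((2 : ℝ) : EReal) ≤ (q : EReal) := EReal.coe_le_coe_iff.2 hq.1
    exact this

/-- `L_r(0,1)` does not have cotype `q` when `q < r`. -/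
theorem not_hasCotype_Lr (r : ℝ≥0∞) [Fact (1 ≤ r)] {q : ℝ} (hq : 2 ≤ q)
    (hqr : (q : EReal) < (r : EReal)) :
    ¬ HasCotype (Lp ℝ r (volume.restrict (Set.Ioo (0 : ℝ) 1))) q := by
  rintro ⟨C, hC, h⟩
  set s : ℝ := 1 / r.toReal with hs
  have hs0 : 0 ≤ s := by positivity
  have hsq : s * q < 1 := by
    by_cases hr : r = ∞
    · rw [hs, hr]; simp
    · have hr1 : q < r.toReal := by
        rw [← EReal.coe_ennreal_toReal hr] at hqr
        exact EReal.coe_lt_coe_iff.1 hqr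
      rw [hs, one_div, inv_mul_lt_iff₀ (by linarith), mul_one]
      exact hr1
  have hbound : ∀ n : ℕ, 0 < n → (n : ℝ) ^ (1 - s * q) ≤ C ^ q := by
    intro n hn
    have hn0 : (0 : ℝ) < n := by exact_mod_cast hn
    obtain ⟨v, hv1, hv2⟩ := Pool.H45.S1.exists_disjoint_vectors r n hn
    have h1 := h n v
    have h2 : ∑ j, ‖v j‖ ^ q = (n : ℝ) ^ (1 - s * q) := by
      have e : ∀ j, ‖v j‖ ^ q = (n : ℝ) ^ (-(s * q)) := by
        intro j
        rw [hv1 j, ← hs, ← Real.rpow_mul (by positivity), Real.inv_rpow hn0.le,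
          ← Real.rpow_neg hn0.le]
      rw [Finset.sum_congr rfl fun j _ => e j, Finset.sum_const, Finset.card_univ,
        Fintype.card_fin, nsmul_eq_mul, sub_eq_add_neg, Real.rpow_add hn0, Real.rpow_one]
    rw [h2] at h1
    refine h1.trans ?_
    have h3 : (∑ ε : Fin n → ℤˣ, ‖∑ j, ((ε j : ℤ) : ℝ) • v j‖ ^ q) / 2 ^ n ≤ 1 := by
      rw [div_le_one (by positivity)]
      have h4 : ∀ ε : Fin n → ℤˣ, ‖∑ j, ((ε j : ℤ) : ℝ) • v j‖ ^ q ≤ 1 := by
        intro ε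
        refine Real.rpow_le_one (norm_nonneg _) (hv2 _ fun j => ?_) (by linarith)
        rcases Int.units_eq_one_or (ε j) with he | he <;> simp [he]
      refine (Finset.sum_le_sum fun ε _ => h4 ε).trans (le_of_eq ?_)
      simp
    calc C ^ q * ((∑ ε : Fin n → ℤˣ, ‖∑ j, ((ε j : ℤ) : ℝ) • v j‖ ^ q) / 2 ^ n)
        ≤ C ^ q * 1 := mul_le_mul_of_nonneg_left h3 (Real.rpow_nonneg hC _)
      _ = C ^ q := mul_one _
  have hlim : Tendsto (fun n : ℕ => (n : ℝ) ^ (1 - s * q)) atTop atTop :=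
    (tendsto_rpow_atTop (by linarith)).comp tendsto_natCast_atTop_atTop
  obtain ⟨n, hn1, hn2⟩ := ((hlim.eventually (eventually_gt_atTop (C ^ q))).and
    (eventually_gt_atTop 0)).exists
  exact absurd (hbound n hn2) (not_le.2 hn1)

theorem result {𝕜 H : Type*} [RCLike 𝕜] [NormedAddCommGroup H] [InnerProductSpace 𝕜 H]
    [CompleteSpace H] :
    (∀ (X : Type*) [NormedAddCommGroup X] [NormedSpace ℝ X] (φ : X → (H →L[𝕜] H)),
      IsUniformEmbedding φ ∨ IsCoarseEmbedding φ ∨ IsQuasisymmetricEmbedding φ →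
        cotypeIndex X = 2) ∧
    (∀ (r : ℝ≥0∞) [Fact (1 ≤ r)], 2 < r →
      ∀ φ : Lp ℝ r (volume.restrict (Set.Ioo (0 : ℝ) 1)) → (H →L[𝕜] H),
        ¬ IsUniformEmbedding φ ∧ ¬ IsCoarseEmbedding φ ∧ ¬ IsQuasisymmetricEmbedding φ) := by
  have key : ∀ (r : ℝ≥0∞) [Fact (1 ≤ r)], 2 < r →
      ∀ φ : Lp ℝ r (volume.restrict (Set.Ioo (0 : ℝ) 1)) → (H →L[𝕜] H),
        ¬ (IsUniformEmbedding φ ∨ IsCoarseEmbedding φ ∨ IsQuasisymmetricEmbedding φ) := by
    intro r _ hr φ hφ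
    have h1 := cotypeIndex_eq_two φ hφ
    have h2 : cotypeIndex (Lp ℝ r (volume.restrict (Set.Ioo (0 : ℝ) 1))) < (r : EReal) := by
      have e : (2 : EReal) = ((2 : ℝ≥0∞) : EReal) := rfl
      rw [h1, e]
      exact EReal.coe_ennreal_lt_coe_ennreal_iff.2 hr
    rw [cotypeIndex, iInf_lt_iff] at h2
    obtain ⟨q, hq⟩ := h2
    rw [iInf_lt_iff] at hq
    obtain ⟨⟨hq2, hqc⟩, hqr⟩ := hq
    exact not_hasCotype_Lr r hq2 hqr hqc
  refine ⟨fun X _ _ φ hφ => cotypeIndex_eq_two φ hφ, fun r _ hr φ => ?_⟩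
  have h := key r hr φ
  push Not at h
  exact h

end Pool.Agent.Results.MP_428398_an.TraceClassEmbeddings
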